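import Mathlib

/-!
# Operator norm stability is not preserved by amalgamation over infinite central subgroups

Let `P` be the direct sum of a group of order two, generated by `g0`, and of infinitely many copies of the dihedral
group of order eight, the centre of the `j`-th copy being generated by `gZ j`.  Let `H` be the elementary abelian
2-group with basis `h0, h 0, h 1, ...`, embedded in the centre of `P` in two ways:
`i₁ : h0 ↦ g0, h j ↦ gZ j` and `i₂ : h0 ↦ g0, h j ↦ g0 * gZ j`.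

* `P` is operator norm stable, since it is locally finite with retractions onto finite subgroups and since finite
  groups are operator norm stable (`finite_stable`, proved by a Newton step and compactness).
* Every homomorphism from the amalgam of the two copies of `P` over `H` to a unitary group `U(k)` kills `h0`
  (`kills`, a pigeonhole argument in the compact group `U(k)`).
* There are asymptotic representations of the amalgam sending `h0` to `-1`.
-/

set_option autoImplicit false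

namespace Pool.Agent.Results.MP_e38963_al.CentralAmalgam

open Filter Topology

section alg
variable {F : Type} [Group F] [Fintype F]
variable {A : Type} [CStarAlgebra A]

/-- defect -/
def D (φ : F → A) (g h : F) : A := φ g * φ h - φ (g * h)

/-- correction -/
noncomputable def cor (φ : F → A) (k : F) : A := -((Fintype.card F : ℂ)⁻¹ • ∑ g, φ g⁻¹ * D φ g k)

lemma card_ne : (Fintype.card F : ℂ) ≠ 0 := by
  exact_mod_cast Fintype.card_ne_zero

lemma cor_identity (φ : F → A) (h1 : φ 1 = 1) (h k : F) :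
    D φ h k + φ h * cor φ k + cor φ h * φ k - cor φ (h * k)
      = -((Fintype.card F : ℂ)⁻¹ • ∑ g, (D φ g⁻¹ g * D φ h k + D φ h g⁻¹ * D φ g k)) := by
  have e1 : D φ h k = (Fintype.card F : ℂ)⁻¹ • ∑ g : F, D φ h k := by
    rw [Finset.sum_const, Finset.card_univ, ← Nat.cast_smul_eq_nsmul ℂ, smul_smul, inv_mul_cancel₀ card_ne, one_smul]
  have e2 : ∑ g : F, φ (h * g⁻¹) * D φ g k = ∑ g : F, φ g⁻¹ * D φ (g * h) k := by
    rw [← Equiv.sum_comp (Equiv.mulRight h) (fun g => φ (h * g⁻¹) * D φ g k)]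
    apply Finset.sum_congr rfl
    intro g _
    simp
  have e3 : φ h * cor φ k = -((Fintype.card F : ℂ)⁻¹ • ∑ g : F, (φ g⁻¹ * D φ (g * h) k + D φ h g⁻¹ * D φ g k)) := by
    rw [cor, mul_neg, mul_smul_comm, Finset.mul_sum, Finset.sum_add_distrib, ← e2, ← Finset.sum_add_distrib]
    congr 2
    apply Finset.sum_congr rfl
    intro g _
    simp only [D]
    noncomm_ring
  have e4 : cor φ h * φ k = -((Fintype.card F : ℂ)⁻¹ • ∑ g : F, (φ g⁻¹ * D φ g h * φ k)) := by
    rw [cor, neg_mul, smul_mul_assoc, Finset.sum_mul]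
  conv_lhs => rw [e1]
  rw [e3, e4, cor, ← sub_eq_add_neg, ← sub_eq_add_neg, sub_neg_eq_add, ← smul_sub, ← smul_sub, ← smul_add, ← smul_neg,
    ← Finset.sum_sub_distrib, ← Finset.sum_sub_distrib, ← Finset.sum_add_distrib, ← Finset.sum_neg_distrib]
  congr 1
  apply Finset.sum_congr rfl
  intro g _
  have : φ (g⁻¹ * g) = 1 := by rw [inv_mul_cancel, h1]
  simp only [D, this, mul_assoc]
  noncomm_ring


lemma norm_avg_le (f : F → A) (C : ℝ) (hf : ∀ g, ‖f g‖ ≤ C) :
    ‖-((Fintype.card F : ℂ)⁻¹ • ∑ g, f g)‖ ≤ C := by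
  have hN : (0 : ℝ) < (Fintype.card F : ℝ) := by exact_mod_cast Fintype.card_pos
  rw [norm_neg, norm_smul, norm_inv, Complex.norm_natCast, inv_mul_le_iff₀ hN]
  calc ‖∑ g, f g‖ ≤ ∑ g : F, ‖f g‖ := norm_sum_le _ _
    _ ≤ ∑ g : F, C := Finset.sum_le_sum (fun g _ => hf g)
    _ = (Fintype.card F : ℝ) * C := by rw [Finset.sum_const, Finset.card_univ, nsmul_eq_mul]

lemma cor_norm (φ : F → A) (δ : ℝ) (hb : ∀ g, ‖φ g‖ ≤ 2) (hd : ∀ g h, ‖D φ g h‖ ≤ δ) (k : F) :
    ‖cor φ k‖ ≤ 2 * δ := by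
  apply norm_avg_le
  intro g
  calc ‖φ g⁻¹ * D φ g k‖ ≤ ‖φ g⁻¹‖ * ‖D φ g k‖ := norm_mul_le _ _
    _ ≤ 2 * δ := mul_le_mul (hb _) (hd _ _) (norm_nonneg _) (by norm_num)

lemma cor_one (φ : F → A) (h1 : φ 1 = 1) : cor φ 1 = 0 := by
  simp [cor, D, h1]

/-- first step: quadratic decrease of the defect -/
lemma step1 (φ : F → A) (h1 : φ 1 = 1) (δ : ℝ) (hb : ∀ g, ‖φ g‖ ≤ 2) (hd : ∀ g h, ‖D φ g h‖ ≤ δ) (h k : F) :
    ‖D (fun g => φ g + cor φ g) h k‖ ≤ 6 * δ ^ 2 := by
  have hδ : 0 ≤ δ := (norm_nonneg _).trans (hd 1 1)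
  have e : D (fun g => φ g + cor φ g) h k =
      (D φ h k + φ h * cor φ k + cor φ h * φ k - cor φ (h * k)) + cor φ h * cor φ k := by
    simp only [D]; noncomm_ring
  rw [e, cor_identity φ h1]
  have a1 : ‖-((Fintype.card F : ℂ)⁻¹ • ∑ g, (D φ g⁻¹ g * D φ h k + D φ h g⁻¹ * D φ g k))‖ ≤ 2 * δ ^ 2 := by
    apply norm_avg_le
    intro g
    calc ‖D φ g⁻¹ g * D φ h k + D φ h g⁻¹ * D φ g k‖ ≤ ‖D φ g⁻¹ g * D φ h k‖ + ‖D φ h g⁻¹ * D φ g k‖ := norm_add_le _ _
      _ ≤ ‖D φ g⁻¹ g‖ * ‖D φ h k‖ + ‖D φ h g⁻¹‖ * ‖D φ g k‖ := add_le_add (norm_mul_le _ _) (norm_mul_le _ _)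
      _ ≤ δ * δ + δ * δ := by
        apply add_le_add
        · exact mul_le_mul (hd _ _) (hd _ _) (norm_nonneg _) hδ
        · exact mul_le_mul (hd _ _) (hd _ _) (norm_nonneg _) hδ
      _ = 2 * δ ^ 2 := by ring
  have a2 : ‖cor φ h * cor φ k‖ ≤ 4 * δ ^ 2 := by
    calc ‖cor φ h * cor φ k‖ ≤ ‖cor φ h‖ * ‖cor φ k‖ := norm_mul_le _ _
      _ ≤ (2 * δ) * (2 * δ) := mul_le_mul (cor_norm φ δ hb hd _) (cor_norm φ δ hb hd _) (norm_nonneg _) (by positivity)
      _ = 4 * δ ^ 2 := by ring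
  calc _ ≤ _ := norm_add_le _ _
    _ ≤ 2 * δ ^ 2 + 4 * δ ^ 2 := add_le_add a1 a2
    _ = 6 * δ ^ 2 := by ring

/-- Newton step preserving the symmetry -/
lemma newton (φ : F → A) (h1 : φ 1 = 1) (hs : ∀ g, φ g⁻¹ = star (φ g)) (δ : ℝ) (hb : ∀ g, ‖φ g‖ ≤ 2)
    (hd : ∀ g h, ‖D φ g h‖ ≤ δ) :
    ∃ T : F → A, T 1 = 1 ∧ (∀ g, T g⁻¹ = star (T g)) ∧ (∀ g, ‖T g - φ g‖ ≤ 2 * δ) ∧
      (∀ g h, ‖D T g h‖ ≤ 10 * δ ^ 2) := by
  have hδ : 0 ≤ δ := (norm_nonneg _).trans (hd 1 1)
  set S : F → A := fun g => φ g + cor φ g with hS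
  have hS1 : S 1 = 1 := by simp [hS, h1, cor_one φ h1]
  have hc := cor_norm φ δ hb hd
  have hSd := step1 φ h1 δ hb hd
  rw [← hS] at hSd
  refine ⟨fun g => (2⁻¹ : ℂ) • (S g + star (S g⁻¹)), ?_, ?_, ?_, ?_⟩
  · simp only [inv_one, hS1, star_one]
    rw [← two_smul ℂ (1 : A), smul_smul]; norm_num
  · intro g
    simp only [inv_inv, star_smul, star_add, star_star]
    rw [add_comm]
    congr 1
    simp
  · intro g
    have e : (2⁻¹ : ℂ) • (S g + star (S g⁻¹)) - φ g = (2⁻¹ : ℂ) • (cor φ g + star (cor φ g⁻¹)) := by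
      have : star (S g⁻¹) = φ g + star (cor φ g⁻¹) := by
        simp only [hS, star_add, hs, star_star]
      rw [this]
      simp only [hS]
      module
    rw [e, norm_smul]
    calc ‖(2⁻¹ : ℂ)‖ * ‖cor φ g + star (cor φ g⁻¹)‖ ≤ 2⁻¹ * (2 * δ + 2 * δ) := by
          apply mul_le_mul
          · simp
          · refine (norm_add_le _ _).trans (add_le_add (hc _) ?_)
            rw [norm_star]; exact hc _
          · exact norm_nonneg _
          · norm_num
      _ = 2 * δ := by ring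
  · intro g h
    have e : D (fun g => (2⁻¹ : ℂ) • (S g + star (S g⁻¹))) g h =
        (2⁻¹ : ℂ) • D S g h + (2⁻¹ : ℂ) • star (D S h⁻¹ g⁻¹) - (4⁻¹ : ℂ) • ((S g - star (S g⁻¹)) * (S h - star (S h⁻¹))) := by
      simp only [D, mul_inv_rev, star_sub, star_mul, smul_mul_assoc, mul_smul_comm, smul_smul, mul_add, add_mul, mul_sub, sub_mul,
        smul_add, smul_sub]
      module
    rw [e]
    have b : ∀ g, ‖S g - star (S g⁻¹)‖ ≤ 4 * δ := by
      intro g
      have : S g - star (S g⁻¹) = cor φ g - star (cor φ g⁻¹) := by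
        simp only [hS, star_add, hs, star_star]; abel
      rw [this]
      calc _ ≤ ‖cor φ g‖ + ‖star (cor φ g⁻¹)‖ := norm_sub_le _ _
        _ ≤ 2 * δ + 2 * δ := by rw [norm_star]; exact add_le_add (hc _) (hc _)
        _ = 4 * δ := by ring
    have n2 : ‖(2⁻¹ : ℂ)‖ = 2⁻¹ := by simp
    have n4 : ‖(4⁻¹ : ℂ)‖ = 4⁻¹ := by simp
    calc _ ≤ ‖(2⁻¹ : ℂ) • D S g h + (2⁻¹ : ℂ) • star (D S h⁻¹ g⁻¹)‖ + ‖(4⁻¹ : ℂ) • ((S g - star (S g⁻¹)) * (S h - star (S h⁻¹)))‖ := norm_sub_le _ _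
      _ ≤ (‖(2⁻¹ : ℂ) • D S g h‖ + ‖(2⁻¹ : ℂ) • star (D S h⁻¹ g⁻¹)‖) + ‖(4⁻¹ : ℂ) • ((S g - star (S g⁻¹)) * (S h - star (S h⁻¹)))‖ := by
        gcongr; exact norm_add_le _ _
      _ ≤ (2⁻¹ * (6 * δ ^ 2) + 2⁻¹ * (6 * δ ^ 2)) + 4⁻¹ * ((4 * δ) * (4 * δ)) := by
        rw [norm_smul, norm_smul, norm_smul, n2, n4, norm_star]
        have := (norm_mul_le (S g - star (S g⁻¹)) (S h - star (S h⁻¹))).trans (mul_le_mul (b g) (b h) (norm_nonneg _) (by positivity))
        gcongr
        · exact hSd _ _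
        · exact hSd _ _
      _ = 10 * δ ^ 2 := by ring


/-- existence of an exact homomorphism near an almost multiplicative symmetric map -/
lemma exact_near [ProperSpace A] (φ₀ : F → A) (h1 : φ₀ 1 = 1) (hs : ∀ g, φ₀ g⁻¹ = star (φ₀ g)) (δ : ℝ)
    (hδ : δ ≤ 1 / 20) (hb : ∀ g, ‖φ₀ g‖ ≤ 3 / 2) (hd : ∀ g h, ‖D φ₀ g h‖ ≤ δ) :
    ∃ ψ : F → A, ψ 1 = 1 ∧ (∀ g, ψ g⁻¹ = star (ψ g)) ∧ (∀ g, ‖ψ g - φ₀ g‖ ≤ 4 * δ) ∧
      (∀ g h, ψ (g * h) = ψ g * ψ h) := by
  have hδ0 : 0 ≤ δ := (norm_nonneg _).trans (hd 1 1)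
  let DD : (F → A) → (F × F → A) := fun φ p => D φ p.1 p.2
  have hDDc : Continuous DD := by
    apply continuous_pi
    intro p
    exact ((continuous_apply p.1).mul (continuous_apply p.2)).sub (continuous_apply (p.1 * p.2))
  let K : Set (F → A) := {φ | φ 1 = 1 ∧ (∀ g, φ g⁻¹ = star (φ g)) ∧ ‖φ - φ₀‖ + 4 * ‖DD φ‖ ≤ 4 * δ}
  have hKc : IsClosed K := by
    have c1 : IsClosed {φ : F → A | φ 1 = 1} := isClosed_eq (continuous_apply 1) continuous_const
    have c2 : IsClosed {φ : F → A | ∀ g, φ g⁻¹ = star (φ g)} := by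
      rw [Set.ofPred_forall]
      exact isClosed_iInter (fun g => isClosed_eq (continuous_apply _) ((continuous_apply g).star))
    have c3 : IsClosed {φ : F → A | ‖φ - φ₀‖ + 4 * ‖DD φ‖ ≤ 4 * δ} :=
      isClosed_le (by fun_prop) continuous_const
    exact c1.inter (c2.inter c3)
  have hKb : Bornology.IsBounded K := by
    refine (Metric.isBounded_closedBall (x := φ₀) (r := 4 * δ)).subset ?_
    rintro φ ⟨-, -, h⟩
    rw [Metric.mem_closedBall, dist_eq_norm]
    have := norm_nonneg (DD φ)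
    linarith
  have hK : IsCompact K := Metric.isCompact_of_isClosed_isBounded hKc hKb
  have hDD0 : ‖DD φ₀‖ ≤ δ := (pi_norm_le_iff_of_nonneg hδ0).2 (fun p => hd _ _)
  have hne : K.Nonempty := ⟨φ₀, h1, hs, by simpa using hDD0⟩
  obtain ⟨ψ, hψK, hmin⟩ := hK.exists_isMinOn hne (hDDc.norm.continuousOn)
  obtain ⟨p1, p2, p3⟩ := hψK
  set δ' := ‖DD ψ‖ with hδ'
  have hδ'0 : 0 ≤ δ' := norm_nonneg _
  have hnn : 0 ≤ ‖ψ - φ₀‖ := norm_nonneg _
  have hδ'δ : δ' ≤ δ := by linarith
  have hdψ : ∀ g h, ‖D ψ g h‖ ≤ δ' := fun g h => norm_le_pi_norm (DD ψ) (g, h)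
  have hψφ : ∀ g, ‖ψ g - φ₀ g‖ ≤ 4 * δ := by
    intro g
    have := norm_le_pi_norm (ψ - φ₀) g
    rw [Pi.sub_apply] at this
    linarith
  have hbψ : ∀ g, ‖ψ g‖ ≤ 2 := by
    intro g
    have e : ψ g = (ψ g - φ₀ g) + φ₀ g := by abel
    rw [e]
    calc _ ≤ ‖ψ g - φ₀ g‖ + ‖φ₀ g‖ := norm_add_le _ _
      _ ≤ 4 * δ + 3 / 2 := add_le_add (hψφ g) (hb g)
      _ ≤ 2 := by linarith
  obtain ⟨T, t1, t2, t3, t4⟩ := newton ψ p1 p2 δ' hbψ hdψ
  have hTD : ‖DD T‖ ≤ 10 * δ' ^ 2 := (pi_norm_le_iff_of_nonneg (by positivity)).2 (fun p => t4 _ _)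
  have hTψ : ‖T - ψ‖ ≤ 2 * δ' := (pi_norm_le_iff_of_nonneg (by positivity)).2 (fun p => t3 _)
  have hTK : T ∈ K := by
    refine ⟨t1, t2, ?_⟩
    have e : T - φ₀ = (T - ψ) + (ψ - φ₀) := by abel
    have := norm_add_le (T - ψ) (ψ - φ₀)
    rw [← e] at this
    nlinarith
  have hle : δ' ≤ ‖DD T‖ := hmin hTK
  have hzero : δ' = 0 := by
    by_contra hne0
    have hpos : 0 < δ' := lt_of_le_of_ne hδ'0 (Ne.symm hne0)
    nlinarith
  refine ⟨ψ, p1, p2, hψφ, ?_⟩
  intro g h
  have := hdψ g h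
  rw [hzero] at this
  have := norm_le_zero_iff.1 this
  rw [D, sub_eq_zero] at this
  exact this.symm

/-- A finite group is operator norm stable, uniformly in the algebra. -/
lemma finite_stable (ε : ℝ) (hε : 0 < ε) :
    ∃ δ : ℝ, 0 < δ ∧ ∀ (A : Type) [CStarAlgebra A] [ProperSpace A] [Nontrivial A] (φ : F → unitary A),
      (∀ g h, ‖((φ (g * h) : A) - φ g * φ h)‖ ≤ δ) → ∃ ψ : F →* unitary A, ∀ g, ‖((φ g : A) - ψ g)‖ ≤ ε := by
  refine ⟨min (1 / 100) (ε / 21), by positivity, ?_⟩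
  intro A _ _ _ φ hφ
  set δ := min (1 / 100) (ε / 21) with hδdef
  have hδ0 : 0 < δ := by positivity
  have hδ1 : δ ≤ 1 / 100 := min_le_left _ _
  have hδ2 : δ ≤ ε / 21 := min_le_right _ _
  have hu : ∀ g, ‖(φ g : A)‖ = 1 := fun g => CStarRing.norm_coe_unitary (φ g)
  have k1 : ‖((φ 1 : A) - 1)‖ ≤ δ := by
    have h := hφ 1 1
    rw [mul_one] at h
    have e : (φ 1 : A) - φ 1 * φ 1 = - (φ 1 * ((φ 1 : A) - 1)) := by noncomm_ring
    rw [e, norm_neg, CStarRing.norm_coe_unitary_mul] at h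
    exact h
  have k2 : ∀ g, ‖star (φ g⁻¹ : A) - (φ g : A)‖ ≤ 2 * δ := by
    intro g
    have e : star (φ g⁻¹ : A) - (φ g : A) = star (φ g⁻¹ : A) * ((1 - (φ 1 : A)) + ((φ 1 : A) - φ g⁻¹ * φ g)) := by
      have : star (φ g⁻¹ : A) * φ g⁻¹ = 1 := Unitary.coe_star_mul_self _
      calc star (φ g⁻¹ : A) - (φ g : A) = star (φ g⁻¹ : A) - (star (φ g⁻¹ : A) * φ g⁻¹) * (φ g : A) := by rw [this, one_mul]
        _ = _ := by noncomm_ring
    rw [e]
    have hn : ‖star (φ g⁻¹ : A)‖ = 1 := by rw [norm_star]; exact hu _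
    calc _ ≤ ‖star (φ g⁻¹ : A)‖ * ‖((1 - (φ 1 : A)) + ((φ 1 : A) - φ g⁻¹ * φ g))‖ := norm_mul_le _ _
      _ ≤ 1 * (δ + δ) := by
        rw [hn]
        gcongr
        refine (norm_add_le _ _).trans (add_le_add ?_ ?_)
        · rw [norm_sub_rev]; exact k1
        · have := hφ g⁻¹ g
          rwa [inv_mul_cancel] at this
      _ = 2 * δ := by ring
  classical
  let φ₀ : F → A := fun g => if g = 1 then 1 else (2⁻¹ : ℂ) • ((φ g : A) + star (φ g⁻¹ : A))
  have n2 : ‖(2⁻¹ : ℂ)‖ = 2⁻¹ := by simp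
  have q : ∀ g, ‖φ₀ g - φ g‖ ≤ δ := by
    intro g
    by_cases hg : g = 1
    · simp only [φ₀, hg, if_true]
      rw [norm_sub_rev]; exact k1
    · simp only [φ₀, hg, if_false]
      have e : (2⁻¹ : ℂ) • ((φ g : A) + star (φ g⁻¹ : A)) - φ g = (2⁻¹ : ℂ) • (star (φ g⁻¹ : A) - φ g) := by module
      rw [e, norm_smul, n2]
      have := k2 g
      linarith
  have hb0 : ∀ g, ‖φ₀ g‖ ≤ 1 + δ := by
    intro g
    have e : φ₀ g = (φ g : A) + (φ₀ g - φ g) := by abel
    rw [e]
    exact (norm_add_le _ _).trans (add_le_add (hu g).le (q g))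
  have hd0 : ∀ g h, ‖D φ₀ g h‖ ≤ 5 * δ := by
    intro g h
    have e : D φ₀ g h = (φ₀ g - φ g) * φ₀ h + φ g * (φ₀ h - φ h) - ((φ (g * h) : A) - φ g * φ h) - (φ₀ (g * h) - φ (g * h)) := by
      simp only [D]; noncomm_ring
    rw [e]
    have a1 : ‖(φ₀ g - φ g) * φ₀ h‖ ≤ 2 * δ := by
      calc _ ≤ ‖φ₀ g - φ g‖ * ‖φ₀ h‖ := norm_mul_le _ _
        _ ≤ δ * (1 + δ) := mul_le_mul (q g) (hb0 h) (norm_nonneg _) hδ0.le
        _ ≤ 2 * δ := by nlinarith
    have a2 : ‖φ g * (φ₀ h - φ h)‖ ≤ δ := by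
      rw [CStarRing.norm_coe_unitary_mul]; exact q h
    have a3 := hφ g h
    have a4 := q (g * h)
    calc _ ≤ ‖(φ₀ g - φ g) * φ₀ h + φ g * (φ₀ h - φ h) - ((φ (g * h) : A) - φ g * φ h)‖ + ‖φ₀ (g * h) - φ (g * h)‖ := norm_sub_le _ _
      _ ≤ ‖(φ₀ g - φ g) * φ₀ h + φ g * (φ₀ h - φ h)‖ + ‖(φ (g * h) : A) - φ g * φ h‖ + ‖φ₀ (g * h) - φ (g * h)‖ := by
        gcongr; exact norm_sub_le _ _
      _ ≤ ‖(φ₀ g - φ g) * φ₀ h‖ + ‖φ g * (φ₀ h - φ h)‖ + ‖(φ (g * h) : A) - φ g * φ h‖ + ‖φ₀ (g * h) - φ (g * h)‖ := by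
        gcongr; exact norm_add_le _ _
      _ ≤ 5 * δ := by linarith
  have hs0 : ∀ g, φ₀ g⁻¹ = star (φ₀ g) := by
    intro g
    by_cases hg : g = 1
    · simp [φ₀, hg]
    · have hg' : g⁻¹ ≠ 1 := by simpa using hg
      simp only [φ₀, hg, hg', if_false, inv_inv, star_smul, star_add, star_star]
      rw [add_comm]
      congr 1
      simp
  obtain ⟨ψ, w1, w2, w3, w4⟩ := exact_near φ₀ (by simp [φ₀]) hs0 (5 * δ) (by linarith) (fun g => (hb0 g).trans (by linarith)) hd0
  have hun : ∀ g, ψ g ∈ unitary A := by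
    intro g
    rw [Unitary.mem_iff]
    constructor
    · rw [← w2, ← w4, inv_mul_cancel, w1]
    · rw [← w2, ← w4, mul_inv_cancel, w1]
  refine ⟨{ toFun := fun g => ⟨ψ g, hun g⟩, map_one' := Subtype.ext w1, map_mul' := fun g h => Subtype.ext (w4 g h) }, ?_⟩
  intro g
  show ‖(φ g : A) - ψ g‖ ≤ ε
  have e : (φ g : A) - ψ g = -((φ₀ g - φ g) + (ψ g - φ₀ g)) := by abel
  rw [e, norm_neg]
  calc _ ≤ ‖φ₀ g - φ g‖ + ‖ψ g - φ₀ g‖ := norm_add_le _ _
    _ ≤ δ + 4 * (5 * δ) := add_le_add (q g) (w3 g)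
    _ ≤ ε := by linarith

end alg

open Filter Topology
open scoped Matrix.Norms.L2Operator

/-- Operator norm stability (matricial stability) of a group, as in the problem file. The norm on matrices is the
operator norm on the Euclidean space. -/
def OpNormStable (G : Type) [Group G] : Prop :=
  ∀ k : ℕ → ℕ, (∀ n, 1 ≤ k n) → ∀ φ : (n : ℕ) → G → Matrix.unitaryGroup (Fin (k n)) ℂ,
    (∀ g h : G, Tendsto (fun n =>
      ‖(φ n (g * h) : Matrix (Fin (k n)) (Fin (k n)) ℂ) - (φ n g : Matrix (Fin (k n)) (Fin (k n)) ℂ) * (φ n h : Matrix (Fin (k n)) (Fin (k n)) ℂ)‖)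
      atTop (𝓝 0)) →
    ∃ ψ : (n : ℕ) → G →* Matrix.unitaryGroup (Fin (k n)) ℂ, ∀ g : G, Tendsto (fun n =>
      ‖(φ n g : Matrix (Fin (k n)) (Fin (k n)) ℂ) - (ψ n g : Matrix (Fin (k n)) (Fin (k n)) ℂ)‖) atTop (𝓝 0)

/-- A group with endomorphisms of finite range converging pointwise to the identity is operator norm stable. -/
lemma stable_of_retracts (G : Type) [Group G] (r : ℕ → G →* G) (hfin : ∀ m, Finite (r m).range)
    (hr : ∀ g, ∀ᶠ m in atTop, r m g = g) : OpNormStable G := by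
  intro k hk φ hφ
  classical
  let Q : ℕ → ℕ → Prop := fun m n => ∃ ψ : (r m).range →* Matrix.unitaryGroup (Fin (k n)) ℂ,
    ∀ g : (r m).range, ‖(φ n (g : G) : Matrix (Fin (k n)) (Fin (k n)) ℂ) - (ψ g : Matrix (Fin (k n)) (Fin (k n)) ℂ)‖ ≤ 1 / ((m : ℝ) + 1)
  have hQ : ∀ m, ∀ᶠ n in atTop, Q m n := by
    intro m
    have := hfin m
    have : Fintype (r m).range := Fintype.ofFinite _
    obtain ⟨δ, hδ, hst⟩ := finite_stable (F := (r m).range) (1 / ((m : ℝ) + 1)) (by positivity)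
    have hev : ∀ᶠ n in atTop, ∀ p : (r m).range × (r m).range,
        ‖(φ n ((p.1 : G) * (p.2 : G)) : Matrix (Fin (k n)) (Fin (k n)) ℂ) - (φ n (p.1 : G) : Matrix (Fin (k n)) (Fin (k n)) ℂ) * (φ n (p.2 : G) : Matrix (Fin (k n)) (Fin (k n)) ℂ)‖ ≤ δ := by
      rw [eventually_all]
      intro p
      have := (hφ p.1 p.2).eventually (gt_mem_nhds hδ)
      exact this.mono (fun n hn => hn.le)
    filter_upwards [hev] with n hn
    have : Nonempty (Fin (k n)) := ⟨⟨0, hk n⟩⟩
    have : ProperSpace (Matrix (Fin (k n)) (Fin (k n)) ℂ) := FiniteDimensional.proper ℂ _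
    obtain ⟨ψ, hψ⟩ := hst (Matrix (Fin (k n)) (Fin (k n)) ℂ) (fun g => φ n (g : G)) (fun g h => hn (g, h))
    exact ⟨ψ, hψ⟩
  let M : ℕ → ℕ := fun n => Nat.findGreatest (fun m => Q m n) n
  have hM : Tendsto M atTop atTop := by
    rw [tendsto_atTop]
    intro b
    filter_upwards [hQ b, eventually_ge_atTop b] with n h1 h2
    exact Nat.le_findGreatest h2 h1
  have hMQ : ∀ᶠ n in atTop, Q (M n) n := by
    filter_upwards [hQ 0] with n h1
    exact Nat.findGreatest_spec (P := fun m => Q m n) (Nat.zero_le n) h1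
  let ψ : (n : ℕ) → G →* Matrix.unitaryGroup (Fin (k n)) ℂ := fun n =>
    if h : Q (M n) n then h.choose.comp (r (M n)).rangeRestrict else 1
  refine ⟨ψ, ?_⟩
  intro g
  have hlim : Tendsto (fun n => 1 / ((M n : ℝ) + 1)) atTop (𝓝 0) :=
    tendsto_one_div_add_atTop_nhds_zero_nat.comp hM
  refine squeeze_zero' (Eventually.of_forall (fun n => norm_nonneg _)) ?_ hlim
  filter_upwards [hMQ, hM.eventually (hr g)] with n h1 h2
  have e : ψ n g = h1.choose ⟨g, ⟨g, h2⟩⟩ := by
    simp only [ψ, dif_pos h1, MonoidHom.comp_apply]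
    congr 1
    exact Subtype.ext h2
  rw [e]
  exact h1.choose_spec ⟨g, ⟨g, h2⟩⟩

/-! ### The locally finite group `P`, a direct sum of a group of order two and of infinitely many copies of the
dihedral group of order eight -/

/-- Elements of `Z/2 x (direct sum of copies of the Heisenberg group over Z/2)`. -/
@[ext] structure P where
  e : ZMod 2
  a : ℕ →₀ ZMod 2
  b : ℕ →₀ ZMod 2
  c : ℕ →₀ ZMod 2

namespace P

noncomputable instance : Mul P where
  mul x y := ⟨x.e + y.e, x.a + y.a, x.b + y.b, x.c + y.c + x.a * y.b⟩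
noncomputable instance : One P where
  one := ⟨0, 0, 0, 0⟩
noncomputable instance : Inv P where
  inv x := ⟨-x.e, -x.a, -x.b, -x.c + x.a * x.b⟩

@[simp] lemma mul_e (x y : P) : (x * y).e = x.e + y.e := rfl
@[simp] lemma mul_a (x y : P) : (x * y).a = x.a + y.a := rfl
@[simp] lemma mul_b (x y : P) : (x * y).b = x.b + y.b := rfl
@[simp] lemma mul_c (x y : P) : (x * y).c = x.c + y.c + x.a * y.b := rfl
@[simp] lemma one_e : (1 : P).e = 0 := rfl
@[simp] lemma one_a : (1 : P).a = 0 := rfl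
@[simp] lemma one_b : (1 : P).b = 0 := rfl
@[simp] lemma one_c : (1 : P).c = 0 := rfl
@[simp] lemma inv_e (x : P) : (x⁻¹).e = -x.e := rfl
@[simp] lemma inv_a (x : P) : (x⁻¹).a = -x.a := rfl
@[simp] lemma inv_b (x : P) : (x⁻¹).b = -x.b := rfl
@[simp] lemma inv_c (x : P) : (x⁻¹).c = -x.c + x.a * x.b := rfl

noncomputable instance : Group P where
  mul_assoc x y z := by
    apply P.ext
    · simp [add_assoc]
    · simp [add_assoc]
    · simp [add_assoc]
    · simp only [mul_c, mul_a, mul_b, add_mul, mul_add]; abel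
  one_mul x := by apply P.ext <;> simp
  mul_one x := by apply P.ext <;> simp
  inv_mul_cancel x := by
    apply P.ext
    · exact neg_add_cancel x.e
    · exact neg_add_cancel x.a
    · exact neg_add_cancel x.b
    · show -x.c + x.a * x.b + x.c + (-x.a) * x.b = 0
      have h : (-x.a) * x.b = -(x.a * x.b) := by
        ext k; simp
      rw [h]; abel

instance : Countable P := by
  have : Function.Injective (fun x : P => (x.e, x.a, x.b, x.c)) := by
    intro x y h
    simp only [Prod.mk.injEq] at h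
    exact P.ext h.1 h.2.1 h.2.2.1 h.2.2.2
  exact this.countable

/-- truncation -/
noncomputable def r (m : ℕ) : P →* P where
  toFun x := ⟨x.e, x.a.filter (· < m), x.b.filter (· < m), x.c.filter (· < m)⟩
  map_one' := by
    apply P.ext
    · rfl
    · exact Finsupp.filter_zero _
    · exact Finsupp.filter_zero _
    · exact Finsupp.filter_zero _
  map_mul' x y := by
    apply P.ext
    · simp
    · simp [Finsupp.filter_add]
    · simp [Finsupp.filter_add]
    · simp only [mul_c, Finsupp.filter_add]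
      congr 1
      ext i
      by_cases h : i < m <;> simp [h]

lemma r_finite (m : ℕ) : Finite (r m).range := by
  have : Function.Injective (fun x : (r m).range =>
      ((x.1.e, fun i : Fin m => x.1.a i, fun i : Fin m => x.1.b i, fun i : Fin m => x.1.c i) :
        ZMod 2 × (Fin m → ZMod 2) × (Fin m → ZMod 2) × (Fin m → ZMod 2))) := by
    rintro ⟨_, ⟨x, rfl⟩⟩ ⟨_, ⟨y, rfl⟩⟩ h
    simp only [Prod.mk.injEq, funext_iff] at h
    obtain ⟨h1, h2, h3, h4⟩ := h
    apply Subtype.ext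
    apply P.ext
    · exact h1
    · ext i
      by_cases hi : i < m
      · exact h2 ⟨i, hi⟩
      · simp [r, hi]
    · ext i
      by_cases hi : i < m
      · exact h3 ⟨i, hi⟩
      · simp [r, hi]
    · ext i
      by_cases hi : i < m
      · exact h4 ⟨i, hi⟩
      · simp [r, hi]
  exact Finite.of_injective _ this

lemma filter_eventually (f : ℕ →₀ ZMod 2) : ∀ᶠ m : ℕ in atTop, f.filter (· < m) = f := by
  filter_upwards [eventually_gt_atTop (f.support.sup id)] with m hm
  rw [Finsupp.filter_eq_self_iff]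
  intro x hx
  have : x ∈ f.support := by simpa using hx
  exact lt_of_le_of_lt (Finset.le_sup (f := id) this) hm

lemma r_eventually (g : P) : ∀ᶠ m in atTop, r m g = g := by
  filter_upwards [filter_eventually g.a, filter_eventually g.b, filter_eventually g.c] with m h1 h2 h3
  apply P.ext
  · rfl
  · exact h1
  · exact h2
  · exact h3

lemma stable : OpNormStable P := stable_of_retracts P r r_finite r_eventually

end P

/-- The central subgroup. -/
abbrev H : Type := Multiplicative (ZMod 2 × (ℕ →₀ ZMod 2))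

/-- sum of the coordinates -/
noncomputable def sg : (ℕ →₀ ZMod 2) →+ ZMod 2 := Finsupp.liftAddHom (fun _ => AddMonoidHom.id (ZMod 2))

lemma sg_single (j : ℕ) (x : ZMod 2) : sg (Finsupp.single j x) = x := by
  simp [sg]

lemma sg_eventually (c : ℕ →₀ ZMod 2) : ∀ᶠ n : ℕ in atTop, ∑ j : Fin n, c j = sg c := by
  filter_upwards [eventually_gt_atTop (c.support.sup id)] with n hn
  have e : sg c = c.sum (fun _ x => x) := by
    simp only [sg, Finsupp.liftAddHom_apply]
    rfl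
  rw [e, Finset.sum_fin_eq_sum_range, Finsupp.sum_of_support_subset c (s := Finset.range n)]
  · apply Finset.sum_congr rfl
    intro i hi
    rw [dif_pos (Finset.mem_range.1 hi)]
  · intro i hi
    rw [Finset.mem_range]
    exact lt_of_le_of_lt (Finset.le_sup (f := id) hi) hn
  · simp

/-- first embedding -/
noncomputable def i₁ : H →* P where
  toFun x := ⟨x.toAdd.1, 0, 0, x.toAdd.2⟩
  map_one' := rfl
  map_mul' x y := by apply P.ext <;> simp

/-- second embedding -/
noncomputable def i₂ : H →* P where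
  toFun x := ⟨x.toAdd.1 + sg x.toAdd.2, 0, 0, x.toAdd.2⟩
  map_one' := by apply P.ext <;> simp
  map_mul' x y := by
    apply P.ext
    · simp only [P.mul_e, toAdd_mul, Prod.fst_add, Prod.snd_add, map_add]; abel
    · simp
    · simp
    · simp

/-- the two embeddings as a family indexed by `Fin 2` -/
noncomputable def emb : Fin 2 → (H →* P) := ![i₁, i₂]

lemma central (x : P) (ha : x.a = 0) (hb : x.b = 0) : x ∈ Subgroup.center P := by
  rw [Subgroup.mem_center_iff]
  intro y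
  apply P.ext <;> simp [ha, hb, add_comm]

lemma i₁_inj : Function.Injective i₁ := by
  intro x y h
  have h1 := congrArg P.e h
  have h2 := congrArg P.c h
  exact Multiplicative.toAdd.injective (Prod.ext h1 h2)

lemma i₂_inj : Function.Injective i₂ := by
  intro x y h
  have h1 := congrArg P.e h
  have h2 : x.toAdd.2 = y.toAdd.2 := congrArg P.c h
  have h3 : x.toAdd.1 + sg x.toAdd.2 = y.toAdd.1 + sg y.toAdd.2 := h1
  rw [h2] at h3
  exact Multiplicative.toAdd.injective (Prod.ext (add_right_cancel h3) h2)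

instance : Infinite H := by
  have : Function.Injective (fun n : ℕ => (Multiplicative.ofAdd ((0 : ZMod 2), Finsupp.single n (1 : ZMod 2)) : H)) := by
    intro x y h
    have h2 : Finsupp.single x (1 : ZMod 2) = Finsupp.single y (1 : ZMod 2) := congrArg Prod.snd h
    exact Finsupp.single_left_injective one_ne_zero h2
  exact Infinite.of_injective _ this

/-! ### Finite dimensional representations of `P` -/

/-- generators -/
noncomputable def gA (j : ℕ) : P := ⟨0, Finsupp.single j 1, 0, 0⟩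
noncomputable def gB (j : ℕ) : P := ⟨0, 0, Finsupp.single j 1, 0⟩
noncomputable def gZ (j : ℕ) : P := ⟨0, 0, 0, Finsupp.single j 1⟩
noncomputable def g0 : P := ⟨1, 0, 0, 0⟩

lemma single_mul_single_ne (i j : ℕ) (h : i ≠ j) :
    (Finsupp.single i 1 * Finsupp.single j 1 : ℕ →₀ ZMod 2) = 0 := by
  ext k
  simp only [Finsupp.mul_apply, Finsupp.single_apply, Finsupp.coe_zero, Pi.zero_apply]
  by_cases h1 : i = k
  · have : j ≠ k := fun h2 => h (h1.trans h2.symm)
    simp [this]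
  · simp [h1]

lemma comm_ne (i j : ℕ) (h : i ≠ j) : gA i * gB j = gB j * gA i := by
  apply P.ext <;> simp [gA, gB, single_mul_single_ne i j h]

lemma comm_eq (j : ℕ) : gA j * gB j = gZ j * (gB j * gA j) := by
  have : (Finsupp.single j 1 * Finsupp.single j 1 : ℕ →₀ ZMod 2) = Finsupp.single j 1 := by
    ext k
    simp only [Finsupp.mul_apply, Finsupp.single_apply]
    by_cases h1 : j = k <;> simp [h1]
  apply P.ext <;> simp [gA, gB, gZ, this]

lemma gZ_sq (j : ℕ) : gZ j * gZ j = 1 := by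
  apply P.ext
  · simp [gZ]
  · simp [gZ]
  · simp [gZ]
  · have h2 : (1 : ZMod 2) + 1 = 0 := by decide
    simp only [gZ, P.mul_c, P.one_c, zero_mul, add_zero, ← Finsupp.single_add, h2, Finsupp.single_zero]

section norms
variable {k : ℕ}

/-- Pigeonhole in the compact group `U(k)`: every homomorphism kills all but finitely many `gZ j`. -/
lemma finite_support (hk : 1 ≤ k) (ψ : P →* Matrix.unitaryGroup (Fin k) ℂ) : {j | ψ (gZ j) ≠ 1}.Finite := by
  by_contra hinf
  have hinf : {j | ψ (gZ j) ≠ 1}.Infinite := hinf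
  have hne : Nonempty (Fin k) := ⟨⟨0, hk⟩⟩
  have hps : ProperSpace (Matrix (Fin k) (Fin k) ℂ) := FiniteDimensional.proper ℂ _
  have hu : ∀ g, ‖(ψ g : Matrix (Fin k) (Fin k) ℂ)‖ = 1 := fun g => CStarRing.norm_coe_unitary (ψ g)
  have htb : TotallyBounded (Metric.closedBall (0 : Matrix (Fin k) (Fin k) ℂ) 1) :=
    (isCompact_closedBall (0 : Matrix (Fin k) (Fin k) ℂ) 1).totallyBounded
  rw [Metric.totallyBounded_iff] at htb
  obtain ⟨t, htf, ht⟩ := htb (1 / 4) (by norm_num)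
  have hcov : ∀ j, ∃ y ∈ t, dist (ψ (gA j) : Matrix (Fin k) (Fin k) ℂ) y < 1 / 4 := by
    intro j
    have hm : (ψ (gA j) : Matrix (Fin k) (Fin k) ℂ) ∈ Metric.closedBall (0 : Matrix (Fin k) (Fin k) ℂ) 1 := by
      rw [mem_closedBall_zero_iff, hu]
    have := ht hm
    simp only [Set.mem_iUnion, Metric.mem_ball, exists_prop] at this
    exact this
  choose y hy1 hy2 using hcov
  obtain ⟨i, hi, j, hj, hij, hyy⟩ := hinf.exists_ne_map_eq_of_mapsTo (f := y) (fun j _ => hy1 j) htf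
  apply hj
  -- distance between the images of `gA i` and `gA j`
  set a : Matrix (Fin k) (Fin k) ℂ := (ψ (gA j) : Matrix (Fin k) (Fin k) ℂ) with ha
  set a' : Matrix (Fin k) (Fin k) ℂ := (ψ (gA i) : Matrix (Fin k) (Fin k) ℂ) with ha'
  set b : Matrix (Fin k) (Fin k) ℂ := (ψ (gB j) : Matrix (Fin k) (Fin k) ℂ) with hb
  set w : Matrix (Fin k) (Fin k) ℂ := (ψ (gZ j) : Matrix (Fin k) (Fin k) ℂ) with hw
  have hdist : ‖a - a'‖ < 1 / 2 := by
    have h1 := hy2 j
    have h2 := hy2 i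
    rw [hyy] at h2
    have h3 := dist_triangle_right a a' (y j)
    rw [dist_eq_norm] at h3
    linarith
  have hcommE : a' * b = b * a' := by
    have := congrArg (fun x => (ψ x : Matrix (Fin k) (Fin k) ℂ)) (comm_ne i j hij)
    simpa only [map_mul, Matrix.UnitaryGroup.mul_val] using this
  have hcomm : a * b = w * (b * a) := by
    have := congrArg (fun x => (ψ x : Matrix (Fin k) (Fin k) ℂ)) (comm_eq j)
    simpa only [map_mul, Matrix.UnitaryGroup.mul_val] using this
  have hsq : w * w = 1 := by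
    have := congrArg (fun x => (ψ x : Matrix (Fin k) (Fin k) ℂ)) (gZ_sq j)
    simpa only [map_mul, map_one, Matrix.UnitaryGroup.mul_val, Matrix.UnitaryGroup.one_val] using this
  have hna : ‖a‖ = 1 := hu _
  have hnb : ‖b‖ = 1 := hu _
  have h1 : ‖w - 1‖ < 1 := by
    have e : (w - 1) * (ψ (gB j * gA j) : Matrix (Fin k) (Fin k) ℂ) = (a - a') * b - b * (a - a') := by
      rw [map_mul, Matrix.UnitaryGroup.mul_val, ← ha, ← hb]
      have : (w - 1) * (b * a) = a * b - b * a := by rw [hcomm]; noncomm_ring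
      rw [this]
      have : (a - a') * b - b * (a - a') = (a * b - b * a) - (a' * b - b * a') := by noncomm_ring
      rw [this, hcommE]; abel
    have e2 : ‖(w - 1) * (ψ (gB j * gA j) : Matrix (Fin k) (Fin k) ℂ)‖ = ‖w - 1‖ :=
      CStarRing.norm_mul_coe_unitary _ _
    rw [← e2, e]
    calc _ ≤ ‖(a - a') * b‖ + ‖b * (a - a')‖ := norm_sub_le _ _
      _ ≤ ‖a - a'‖ * ‖b‖ + ‖b‖ * ‖a - a'‖ := add_le_add (norm_mul_le _ _) (norm_mul_le _ _)
      _ < 1 := by rw [hnb]; linarith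
  have h2 : 2 * ‖w - 1‖ ≤ ‖w - 1‖ * ‖w - 1‖ := by
    have e : (w - 1) * (w - 1) = -((2 : ℂ) • (w - 1)) := by
      have : (w - 1) * (w - 1) = w * w - w - w + 1 := by noncomm_ring
      rw [this, hsq]; module
    have e2 : ‖(2 : ℂ) • (w - 1)‖ = 2 * ‖w - 1‖ := by rw [norm_smul]; simp
    rw [← e2, ← norm_neg, ← e]
    exact norm_mul_le _ _
  have h3 : ‖w - 1‖ = 0 := by
    have := norm_nonneg (w - 1)
    nlinarith
  apply Subtype.ext
  exact sub_eq_zero.1 (norm_eq_zero.1 h3)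

end norms

/-- The amalgamated free product of two copies of `P` over `H`. -/
abbrev Am : Type := Monoid.PushoutI (G := fun _ : Fin 2 => P) emb

/-- the two canonical homomorphisms from `P` to the amalgam -/
noncomputable def ofP (i : Fin 2) : P →* Am := Monoid.PushoutI.of (G := fun _ : Fin 2 => P) (φ := emb) i

lemma ofP_emb (i : Fin 2) (h : H) : ofP i (emb i h) = Monoid.PushoutI.base emb h :=
  Monoid.PushoutI.of_apply_eq_base (G := fun _ : Fin 2 => P) emb i h

/-- the distinguished element of the amalgam -/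
noncomputable def x0 : Am := Monoid.PushoutI.base emb (Multiplicative.ofAdd ((1 : ZMod 2), (0 : ℕ →₀ ZMod 2)))

lemma kills {k : ℕ} (hk : 1 ≤ k) (ψ : Am →* Matrix.unitaryGroup (Fin k) ℂ) : ψ x0 = 1 := by
  let ψ₀ : P →* Matrix.unitaryGroup (Fin k) ℂ := ψ.comp (ofP 0)
  let ψ₁ : P →* Matrix.unitaryGroup (Fin k) ℂ := ψ.comp (ofP 1)
  have h0 := finite_support hk ψ₀
  have h1 := finite_support hk ψ₁
  obtain ⟨j, hj⟩ := (h0.union h1).infinite_compl.nonempty
  simp only [Set.mem_compl_iff, Set.mem_union, Set.mem_ofPred_eq, not_or, not_not] at hj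
  obtain ⟨hj0, hj1⟩ := hj
  let hh : H := Multiplicative.ofAdd ((0 : ZMod 2), Finsupp.single j (1 : ZMod 2))
  let h' : H := Multiplicative.ofAdd ((1 : ZMod 2), (0 : ℕ →₀ ZMod 2))
  have e0 : ofP 0 (gZ j) = Monoid.PushoutI.base emb hh := ofP_emb 0 hh
  have e1 : ofP 1 (g0 * gZ j) = Monoid.PushoutI.base emb hh := by
    rw [← ofP_emb 1 hh]
    congr 1
    apply P.ext
    · simp [emb, i₂, hh, g0, gZ, sg_single]
    · simp [emb, i₂, hh, g0, gZ]
    · simp [emb, i₂, hh, g0, gZ]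
    · simp [emb, i₂, hh, g0, gZ]
  have e2 : ofP 1 g0 = x0 := by
    have e3 : emb 1 h' = g0 := by
      apply P.ext <;> simp [emb, i₂, h', g0]
    rw [← e3]
    exact ofP_emb 1 h'
  have a0 : ψ (Monoid.PushoutI.base emb hh) = 1 := by rw [← e0]; exact hj0
  have a1 : ψ (Monoid.PushoutI.base emb hh) = ψ x0 * ψ₁ (gZ j) := by
    rw [← e1, ← e2, map_mul, map_mul]; rfl
  rw [a0, hj1, mul_one] at a1
  exact a1.symm

/-! ### Almost representations of the amalgam -/

/-- the sign character of `ZMod 2` -/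
def sgn (x : ZMod 2) : ℂ := if x = 0 then 1 else -1

lemma sgn_zero : sgn 0 = 1 := by simp [sgn]
lemma sgn_one : sgn 1 = -1 := by simp [sgn]
lemma sgn_add (x y : ZMod 2) : sgn (x + y) = sgn x * sgn y := by
  have h : ∀ x y : ZMod 2, x + y = 0 ↔ x = y := by decide
  have h2 : ∀ x : ZMod 2, x = 0 ∨ x = 1 := by decide
  rcases h2 x with rfl | rfl <;> rcases h2 y with rfl | rfl <;> simp [sgn]
  decide
lemma sgn_mul_self (x : ZMod 2) : sgn x * sgn x = 1 := by
  rw [← sgn_add, CharTwo.add_self_eq_zero, sgn_zero]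
lemma star_sgn (x : ZMod 2) : star (sgn x) = sgn x := by
  unfold sgn; split_ifs <;> simp

section rep
variable (n : ℕ)

/-- restriction of a finitely supported function to the first `n` coordinates -/
def res (a : ℕ →₀ ZMod 2) : Fin n → ZMod 2 := fun j => a j

/-- the exponent of the sign -/
def ex (x : P) (v : Fin n → ZMod 2) : ZMod 2 := x.e + ∑ j : Fin n, (x.c j + x.b j * v j)

/-- matrix of the tensor product representation, in the basis indexed by binary vectors -/
def mat (x : P) : Matrix (Fin n → ZMod 2) (Fin n → ZMod 2) ℂ :=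
  fun v w => if v = w + res n x.a then sgn (ex n x v) else 0

lemma mat_mul (x y : P) : mat n x * mat n y = mat n (x * y) := by
  ext v u
  rw [Matrix.mul_apply]
  have e : ∀ w, mat n x v w * mat n y w u =
      if w = u + res n y.a then (if v = w + res n x.a then sgn (ex n x v) * sgn (ex n y w) else 0) else 0 := by
    intro w
    unfold mat
    by_cases h1 : w = u + res n y.a <;> by_cases h2 : v = w + res n x.a <;> simp [h1, h2]
  simp_rw [e]
  rw [Finset.sum_ite_eq' Finset.univ (u + res n y.a)]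
  simp only [Finset.mem_univ, if_true]
  unfold mat
  have e2 : res n (x * y).a = res n x.a + res n y.a := by
    ext j; simp [res]
  have e3 : u + res n (x * y).a = u + res n y.a + res n x.a := by rw [e2]; abel
  rw [e3]
  by_cases h : v = u + res n y.a + res n x.a
  · rw [if_pos h, if_pos h, ← sgn_add]
    congr 1
    have hw : u + res n y.a = v + res n x.a := by
      rw [h, add_assoc (u + res n y.a)]
      have : res n x.a + res n x.a = 0 := by
        ext j; exact CharTwo.add_self_eq_zero _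
      rw [this, add_zero]
    rw [hw]
    simp only [ex, P.mul_e, P.mul_c, P.mul_b, Finsupp.add_apply, Finsupp.mul_apply, Pi.add_apply, res]
    rw [add_add_add_comm, ← Finset.sum_add_distrib]
    congr 1
    apply Finset.sum_congr rfl
    intro j _
    ring
  · rw [if_neg h, if_neg h]

lemma mat_star (x : P) : mat n x * star (mat n x) = 1 := by
  ext v u
  rw [Matrix.mul_apply]
  have e : ∀ w, mat n x v w * star (mat n x) w u =
      if w = v + res n x.a then (if v = u then 1 else 0) else 0 := by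
    intro w
    rw [Matrix.star_apply]
    unfold mat
    have hz : res n x.a + res n x.a = 0 := by
      ext j; exact CharTwo.add_self_eq_zero _
    have h0 : v = w + res n x.a ↔ w = v + res n x.a := by
      constructor
      · intro h; rw [h, add_assoc, hz, add_zero]
      · intro h; rw [h, add_assoc, hz, add_zero]
    by_cases h1 : w = v + res n x.a
    · have h1' := h0.2 h1
      rw [if_pos h1', if_pos h1]
      by_cases h2 : v = u
      · subst h2
        rw [if_pos h1', if_pos rfl, star_sgn, sgn_mul_self]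
      · have : ¬ (u = w + res n x.a) := fun h => h2 (h1'.trans h.symm)
        rw [if_neg this, if_neg h2]; simp
    · have : ¬ (v = w + res n x.a) := fun h => h1 (h0.1 h)
      rw [if_neg this, if_neg h1, zero_mul]
  simp_rw [e]
  rw [Finset.sum_ite_eq' Finset.univ (v + res n x.a)]
  simp [Matrix.one_apply]

/-- the dimension -/
def dimn : ℕ := Fintype.card (Fin n → ZMod 2)

lemma dimn_pos : 1 ≤ dimn n := Fintype.card_pos

/-- reindexing -/
noncomputable def eqv : (Fin n → ZMod 2) ≃ Fin (dimn n) := Fintype.equivFin _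

/-- reindexed matrix -/
noncomputable def mat' (x : P) : Matrix (Fin (dimn n)) (Fin (dimn n)) ℂ := Matrix.reindex (eqv n) (eqv n) (mat n x)

lemma mat'_mul (x y : P) : mat' n x * mat' n y = mat' n (x * y) := by
  unfold mat'
  rw [← mat_mul, Matrix.reindex_apply, Matrix.reindex_apply, Matrix.reindex_apply, Matrix.submatrix_mul_equiv]

lemma mat'_star (x : P) : mat' n x * star (mat' n x) = 1 := by
  unfold mat'
  rw [Matrix.star_eq_conjTranspose, Matrix.conjTranspose_reindex, ← Matrix.star_eq_conjTranspose,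
    Matrix.reindex_apply, Matrix.reindex_apply, Matrix.submatrix_mul_equiv, mat_star, Matrix.submatrix_one_equiv]

lemma mat_central (x : P) (ha : x.a = 0) (hb : x.b = 0) : mat n x = sgn (x.e + ∑ j : Fin n, x.c j) • 1 := by
  ext v w
  have : res n x.a = 0 := by rw [ha]; rfl
  simp only [mat, this, add_zero, ex, hb, Finsupp.coe_zero, Pi.zero_apply, zero_mul, Matrix.smul_apply, Matrix.one_apply,
    smul_eq_mul, mul_ite, mul_one, mul_zero]

lemma mat'_central (x : P) (ha : x.a = 0) (hb : x.b = 0) : mat' n x = sgn (x.e + ∑ j : Fin n, x.c j) • 1 := by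
  unfold mat'
  rw [mat_central n x ha hb]
  ext v w
  simp [Matrix.one_apply]

/-- second family of representations (tensor products) -/
noncomputable def ρ₁ : P →* Matrix.unitaryGroup (Fin (dimn n)) ℂ where
  toFun x := ⟨mat' n x, Matrix.mem_unitaryGroup_iff.2 (mat'_star n x)⟩
  map_one' := by
    apply Subtype.ext
    show mat' n 1 = 1
    rw [mat'_central n 1 rfl rfl]
    simp [sgn_zero]
  map_mul' x y := Subtype.ext (mat'_mul n x y).symm

/-- first family of representations (scalars) -/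
noncomputable def ρ₀ : P →* Matrix.unitaryGroup (Fin (dimn n)) ℂ where
  toFun x := ⟨sgn x.e • 1, by
    rw [Matrix.mem_unitaryGroup_iff, star_smul, star_one, star_sgn, smul_mul_smul_comm, sgn_mul_self, mul_one, one_smul]⟩
  map_one' := by
    apply Subtype.ext
    show sgn 0 • (1 : Matrix (Fin (dimn n)) (Fin (dimn n)) ℂ) = 1
    rw [sgn_zero, one_smul]
  map_mul' x y := by
    apply Subtype.ext
    show sgn (x.e + y.e) • (1 : Matrix (Fin (dimn n)) (Fin (dimn n)) ℂ) = (sgn x.e • 1) * (sgn y.e • 1)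
    rw [sgn_add, smul_mul_smul_comm, mul_one]

end rep

/-- sequences which are eventually trivial -/
def evOne : Subgroup ((n : ℕ) → Matrix.unitaryGroup (Fin (dimn n)) ℂ) where
  carrier := {f | ∀ᶠ n in atTop, f n = 1}
  mul_mem' := by
    intro f g hf hg
    filter_upwards [hf, hg] with n h1 h2
    rw [Pi.mul_apply, h1, h2, one_mul]
  one_mem' := Eventually.of_forall (fun n => rfl)
  inv_mem' := by
    intro f hf
    filter_upwards [hf] with n h1
    rw [Pi.inv_apply, h1, inv_one]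

instance : evOne.Normal where
  conj_mem := by
    intro f hf g
    filter_upwards [hf] with n h1
    rw [Pi.mul_apply, Pi.mul_apply, h1, mul_one, Pi.inv_apply, mul_inv_cancel]

/-- the two homomorphisms to the group of sequences modulo eventually trivial sequences -/
noncomputable def Θ₀ : P →* ((n : ℕ) → Matrix.unitaryGroup (Fin (dimn n)) ℂ) ⧸ evOne :=
  (QuotientGroup.mk' evOne).comp (MonoidHom.pi ρ₀)
noncomputable def Θ₁ : P →* ((n : ℕ) → Matrix.unitaryGroup (Fin (dimn n)) ℂ) ⧸ evOne :=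
  (QuotientGroup.mk' evOne).comp (MonoidHom.pi ρ₁)

lemma Θ_compat (h : H) : Θ₁ (i₂ h) = Θ₀ (i₁ h) := by
  show ((MonoidHom.pi ρ₁ (i₂ h) : (n : ℕ) → Matrix.unitaryGroup (Fin (dimn n)) ℂ) : _ ⧸ evOne) =
    ((MonoidHom.pi ρ₀ (i₁ h) : (n : ℕ) → Matrix.unitaryGroup (Fin (dimn n)) ℂ) : _ ⧸ evOne)
  rw [QuotientGroup.eq]
  show ∀ᶠ n in atTop, ((MonoidHom.pi ρ₁ (i₂ h))⁻¹ * MonoidHom.pi ρ₀ (i₁ h)) n = 1
  filter_upwards [sg_eventually (Multiplicative.toAdd h).2] with n hn
  rw [Pi.mul_apply, Pi.inv_apply, inv_mul_eq_one]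
  apply Subtype.ext
  show mat' n (i₂ h) = sgn (i₁ h).e • 1
  rw [mat'_central n (i₂ h) rfl rfl]
  have e1 : (i₂ h).e = (i₁ h).e + sg (Multiplicative.toAdd h).2 := rfl
  have e2 : (i₂ h).c = (Multiplicative.toAdd h).2 := rfl
  rw [e1, e2, hn, add_assoc, CharTwo.add_self_eq_zero, add_zero]

/-- the homomorphism from the amalgam to sequences of unitaries modulo eventually trivial sequences -/
noncomputable def Θ : Am →* ((n : ℕ) → Matrix.unitaryGroup (Fin (dimn n)) ℂ) ⧸ evOne :=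
  Monoid.PushoutI.lift (G := fun _ : Fin 2 => P) (φ := emb) ![Θ₀, Θ₁] (Θ₀.comp i₁) (by
    intro i
    fin_cases i
    · rfl
    · exact MonoidHom.ext Θ_compat)

lemma Θ_x0 : Θ x0 = Θ₀ g0 := by
  unfold Θ x0
  rw [Monoid.PushoutI.lift_base]
  rfl

theorem amalgam_not_stable : ¬ OpNormStable Am := by
  intro hst
  let φ : (n : ℕ) → Am → Matrix.unitaryGroup (Fin (dimn n)) ℂ := fun n g => (Quotient.out (Θ g)) n
  have hφ : ∀ g : Am, ((fun n => φ n g : (n : ℕ) → Matrix.unitaryGroup (Fin (dimn n)) ℂ) : _ ⧸ evOne) = Θ g :=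
    fun g => Quotient.out_eq' (Θ g)
  have hmul : ∀ g h : Am, ∀ᶠ n in atTop, φ n (g * h) = φ n g * φ n h := by
    intro g h
    have e : ((fun n => φ n g * φ n h : (n : ℕ) → Matrix.unitaryGroup (Fin (dimn n)) ℂ) : _ ⧸ evOne) =
        ((fun n => φ n (g * h) : (n : ℕ) → Matrix.unitaryGroup (Fin (dimn n)) ℂ) : _ ⧸ evOne) := by
      rw [hφ, map_mul, ← hφ g, ← hφ h]; rfl
    rw [QuotientGroup.eq] at e
    have e' : ∀ᶠ n in atTop, ((fun n => φ n g * φ n h)⁻¹ * (fun n => φ n (g * h)) :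
      (n : ℕ) → Matrix.unitaryGroup (Fin (dimn n)) ℂ) n = 1 := e
    filter_upwards [e'] with n hn
    rw [Pi.mul_apply, Pi.inv_apply, inv_mul_eq_one] at hn
    exact hn.symm
  have hx0 : ∀ᶠ n in atTop, φ n x0 = ρ₀ n g0 := by
    have e : ((fun n => ρ₀ n g0 : (n : ℕ) → Matrix.unitaryGroup (Fin (dimn n)) ℂ) : _ ⧸ evOne) =
        ((fun n => φ n x0 : (n : ℕ) → Matrix.unitaryGroup (Fin (dimn n)) ℂ) : _ ⧸ evOne) := by
      rw [hφ, Θ_x0]; rfl
    rw [QuotientGroup.eq] at e
    have e' : ∀ᶠ n in atTop, ((fun n => ρ₀ n g0)⁻¹ * (fun n => φ n x0) :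
      (n : ℕ) → Matrix.unitaryGroup (Fin (dimn n)) ℂ) n = 1 := e
    filter_upwards [e'] with n hn
    rw [Pi.mul_apply, Pi.inv_apply, inv_mul_eq_one] at hn
    exact hn.symm
  obtain ⟨ψ, hψ⟩ := hst dimn dimn_pos φ (by
    intro g h
    refine tendsto_const_nhds.congr' ?_
    filter_upwards [hmul g h] with n hn
    rw [hn, Matrix.UnitaryGroup.mul_val, sub_self, norm_zero])
  have hlim := hψ x0
  have hconst : ∀ᶠ n in atTop,
      ‖(φ n x0 : Matrix (Fin (dimn n)) (Fin (dimn n)) ℂ) - (ψ n x0 : Matrix (Fin (dimn n)) (Fin (dimn n)) ℂ)‖ = 2 := by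
    filter_upwards [hx0] with n hn
    have hne : Nonempty (Fin (dimn n)) := ⟨⟨0, dimn_pos n⟩⟩
    rw [hn, kills (dimn_pos n) (ψ n)]
    have e : ((ρ₀ n g0 : Matrix.unitaryGroup (Fin (dimn n)) ℂ) : Matrix (Fin (dimn n)) (Fin (dimn n)) ℂ)
        - ((1 : Matrix.unitaryGroup (Fin (dimn n)) ℂ) : Matrix (Fin (dimn n)) (Fin (dimn n)) ℂ) = (-2 : ℂ) • 1 := by
      show sgn 1 • (1 : Matrix (Fin (dimn n)) (Fin (dimn n)) ℂ) - 1 = (-2 : ℂ) • 1
      rw [sgn_one]; module
    rw [e, norm_smul, norm_one]; simp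
  have h2 : Tendsto (fun _ : ℕ => (2 : ℝ)) atTop (𝓝 0) := hlim.congr' hconst
  have := tendsto_nhds_unique h2 tendsto_const_nhds
  norm_num at this

/-- Negative answer to the question: operator norm stability does not pass from countable groups `G 0`, `G 1` to their
amalgamated free product over an infinite group `H` embedded as a central subgroup in both. -/
theorem result :
    ¬ (∀ (G : Fin 2 → Type) [∀ i, Group (G i)] (H : Type) [Group H] (φ : ∀ i, H →* G i),
        (∀ i, Countable (G i)) → Infinite H → (∀ i, Function.Injective (φ i)) →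
        (∀ i h, φ i h ∈ Subgroup.center (G i)) → (∀ i, OpNormStable (G i)) →
        OpNormStable (Monoid.PushoutI φ)) := by
  intro hall
  apply amalgam_not_stable
  refine hall (fun _ => P) H emb (fun _ => inferInstance) inferInstance ?_ ?_ (fun _ => P.stable)
  · intro i
    fin_cases i
    · exact i₁_inj
    · exact i₂_inj
  · intro i h
    fin_cases i
    · exact central _ rfl rfl
    · exact central _ rfl rfl

end Pool.Agent.Results.MP_e38963_al.CentralAmalgam
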